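import Pool.Agent.HPY.ASM

/-!
# Two sums of squares represented by one form `⟨1, t⟩`: base fields with one real place

Let `K` be a field with a henselian valuation ring `O` whose residue field is real, archimedean and
hereditarily euclidean (for instance `ℝ((x₁))⋯((xₙ))`) and let `F / K` be a function field in one
variable. Then any two nonzero sums of squares of `F` are represented by a form `⟨1, t⟩` with `t` a
nonzero sum of squares.
-/

set_option autoImplicit false

open Pool.Agent.HPY

theorem Pool.Agent.Results.MP_862048_al.OneRealPlace.result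
    (K : Type) [Field K] (O : ValuationSubring K)
    (henselian : ∀ x : AlgebraicClosure K, IsIntegral O x ∨ IsIntegral O x⁻¹)
    (real : ¬ IsSumSq (-1 : IsLocalRing.ResidueField O))
    (archimedean : ∀ x : IsLocalRing.ResidueField O, ∃ n : ℕ,
      IsSquare ((n : IsLocalRing.ResidueField O) - x))
    (hereditary : ∀ (L : Type) [Field L] [Algebra (IsLocalRing.ResidueField O) L]
      [FiniteDimensional (IsLocalRing.ResidueField O) L],
      IsSquare (-1 : L) ∨ ∀ x : L, IsSquare x ∨ IsSquare (-x))
    (F : Type) [Field F] [Algebra K F] (g : F) (hg : Transcendental K g)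
    (hfin : FiniteDimensional (IntermediateField.adjoin K {g}) F)
    (t₁ t₂ : F) (h₁ : IsSumSq t₁) (h₁' : t₁ ≠ 0) (h₂ : IsSumSq t₂) (h₂' : t₂ ≠ 0) :
    ∃ t : F, t ≠ 0 ∧ IsSumSq t ∧ (∃ x y : F, t₁ = x ^ 2 + t * y ^ 2) ∧
      (∃ x y : F, t₂ = x ^ 2 + t * y ^ 2) := by
  have h : HP K O := hens (fun x => by
    rcases henselian x with h | h
    · exact Or.inl ((isIntegral_iff_itg x).mp h)
    · exact Or.inr ((isIntegral_iff_itg x⁻¹).mp h)) real archimedean hereditary
  exact main h ⟨g, hg, hfin⟩ h₁ h₁' h₂ h₂'
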